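import Mathlib
import Pool.Agent.Q1.M4.Data
import Pool.Agent.Q1.M4.Walk
import Pool.Agent.H49.Q1.KDist
import Pool.Agent.H49.Q1.Grid
import Pool.Agent.H75.Four.Defs
import Pool.Agent.H75.TwoArm.Defs

set_option autoImplicit false
open Finset Filter Topology

/-! Module M5 (owner helper72): from (A) = convergence of ratios of one-point functions to the
convergence of crossing probabilities of grid polygons. Definitions and statements of the interfaces.

Lattice domain of a type `P` with lattice lines `X`, `Y`: labels `gs X Y P.Q` of the closed region;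
the sides `P.m ≤ n < P.N` of the boundary walk are wired (`WL`), all other labels (`EL`) are random,
including those on the free arc. `TV` = vertices of the closed wired arc. -/

namespace Pool.Agent.Q1.M5

open Pool.Agent.H75.Perc Pool.Agent.H75.Four Pool.Agent.H49.Q1 Pool.Agent.Q1.M4

/-! ### The lattice domain of a type -/

/-- Vertices of the closed lattice segment of a side. -/
def sV (X Y : ℤ → ℤ) (s : Cell × ℤ) (v : ℤ × ℤ) : Prop := onCell X Y s.1 s.2 v

/-- Labels of the edges of the closed lattice segment of a side. -/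
noncomputable def sL (X Y : ℤ → ℤ) (s : Cell × ℤ) : Finset (ℤ × ℤ) :=
  (gcell X Y s.1).filter (fun e => (s.2 % 4 = 0 → e.2 = 2 * Y s.1.2) ∧
    (s.2 % 4 = 1 → e.1 = 2 * X (s.1.1 + 1)) ∧ (s.2 % 4 = 2 → e.2 = 2 * Y (s.1.2 + 1)) ∧
    (s.2 % 4 = 3 → e.1 = 2 * X s.1.1))

/-- Labels of the wired arc. -/
noncomputable def WL (P : PType) (X Y : ℤ → ℤ) : Finset (ℤ × ℤ) :=
  (Finset.Ico P.m P.N).biUnion (fun n => sL X Y (P.side n))

/-- Random labels. -/
noncomputable def EL (P : PType) (X Y : ℤ → ℤ) : Finset (ℤ × ℤ) := gs X Y P.Q \ WL P X Y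

/-- Vertices of the closed wired arc. -/
def TV (P : PType) (X Y : ℤ → ℤ) (v : ℤ × ℤ) : Prop :=
  ∃ n, P.m ≤ n ∧ n < P.N ∧ sV X Y (P.side n) v

/-- `v` is connected to the wired arc. -/
def CT (P : PType) (X Y : ℤ → ℤ) (v : ℤ × ℤ) (ω : Finset (ℤ × ℤ)) : Prop :=
  CJ (WL P X Y) (TV P X Y) v ω

/-- One-point function. -/
noncomputable def hh (P : PType) (X Y : ℤ → ℤ) (v : ℤ × ℤ) : ℝ :=
  Pr (EL P X Y) (CT P X Y v)

/-- Lattice position of the `n`-th boundary vertex. -/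
def lv (P : PType) (X Y : ℤ → ℤ) (n : ℕ) : ℤ × ℤ := lpt X Y (P.vert n)

/-- The vertex `n` is a flat vertex (two cells) of the open free arc. -/
def FlatV (P : PType) (n : ℕ) : Prop :=
  0 < n ∧ n < P.m ∧ (P.side (n - 1)).2 = (P.side n).2

/-- Approximating sequence with (eventually) strictly monotone lattice lines. -/
structure App (x y : ℤ → ℝ) (R : ℕ → ℝ) (X Y : ℕ → ℤ → ℤ) : Prop where
  app : Approx x y R X Y
  mono : ∀ᶠ j in atTop, StrictMono (X j) ∧ StrictMono (Y j)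

/-! ### Statements -/

/-- **(A)**, delivered by M4 (helper26): convergence of ratios. -/
def StA : Prop := ∀ (P : PType) (x y : ℤ → ℝ), StrictMono x → StrictMono y →
  ∀ n n' : ℕ, FlatV P n → FlatV P n' → ∃ q : ℝ, 0 < q ∧
  ∀ (R : ℕ → ℝ) (X Y : ℕ → ℤ → ℤ), App x y R X Y →
    Tendsto (fun j => hh P (X j) (Y j) (lv P (X j) (Y j) n) /
      hh P (X j) (Y j) (lv P (X j) (Y j) n')) atTop (𝓝 q)

/-- **(B2)** (helper44): normalised one-point functions converge, `pz` = normalisation. -/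
def StB2 (pz : ℝ → ℝ) : Prop := ∀ (P : PType) (x y : ℤ → ℝ), StrictMono x → StrictMono y →
  ∀ n : ℕ, FlatV P n → ∃ g : ℝ, 0 < g ∧
  ∀ (R : ℕ → ℝ) (X Y : ℕ → ℤ → ℤ), App x y R X Y →
    Tendsto (fun j => hh P (X j) (Y j) (lv P (X j) (Y j) n) / pz (R j)) atTop (𝓝 g)

/-- Bounds of the normalisation. -/
def StPz (pz : ℝ → ℝ) : Prop := (∀ R, 0 < pz R) ∧
  ∃ c C : ℝ, 0 < c ∧ 0 < C ∧ ∀ R : ℝ, 1 ≤ R →
    c * R ^ (-(1 / 3) : ℝ) ≤ pz R ∧ pz R ≤ C * R ^ (-(1 / 3) : ℝ)

/-- **(C2)** (helper44, 76, 90): normalised `k`-point functions converge. -/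
def StC2 (pz : ℝ → ℝ) : Prop := ∀ (P : PType) (x y : ℤ → ℝ), StrictMono x → StrictMono y →
  ∀ s : Finset ℕ, (∀ n ∈ s, FlatV P n) → ∃ g : ℝ,
  ∀ (R : ℕ → ℝ) (X Y : ℕ → ℤ → ℤ), App x y R X Y →
    Tendsto (fun j => Pr (EL P (X j) (Y j))
      (fun ω => ∀ n ∈ s, CT P (X j) (Y j) (lv P (X j) (Y j) n) ω) / pz (R j) ^ s.card)
      atTop (𝓝 g)

/-- Some vertex of the closed sides `n1 ≤ n < n2` is connected to the wired arc. -/
def CI (P : PType) (X Y : ℤ → ℤ) (n1 n2 : ℕ) (ω : Finset (ℤ × ℤ)) : Prop :=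
  ∃ n, n1 ≤ n ∧ n < n2 ∧ ∃ v, sV X Y (P.side n) v ∧ CT P X Y v ω

/-- **(C3)** (helper4): crossing probabilities of grid polygons converge (deliverable of M5): `I` =
closed sides `n1 ≤ n < n2`, disjoint from the wired arc. -/
def StC3 : Prop := ∀ (P : PType) (x y : ℤ → ℝ), StrictMono x → StrictMono y →
  ∀ n1 n2 : ℕ, 0 < n1 → n1 < n2 → n2 < P.m → ∃ c : ℝ,
  ∀ (R : ℕ → ℝ) (X Y : ℕ → ℤ → ℤ), App x y R X Y →
    Tendsto (fun j => Pr (EL P (X j) (Y j)) (CI P (X j) (Y j) n1 n2)) atTop (𝓝 c)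

/-! ### Exterior wire (helper6) -/

/-- `v` is a vertex of the closed lattice region. -/
def inVV (Q : Finset Cell) (X Y : ℤ → ℤ) (v : ℤ × ℤ) : Prop := inV Q X Y v

/-- Outer neighbour of the vertex `v` of a side with direction `k` (domain on the left). -/
def outer (k : ℤ) (v : ℤ × ℤ) : ℤ × ℤ := v + H75.Perc.dir (k - 1)

open Classical in
/-- The exterior wire: wired arc, all labels with both ends outside the closed region, and the labels
joining the vertices of the wired arc to the outside. -/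
noncomputable def XW (P : PType) (X Y : ℤ → ℤ) (M : ℤ) : Finset (ℤ × ℤ) :=
  WL P X Y ∪ (H75.TwoArm.BB M).filter (fun e =>
    (¬ inV P.Q X Y (eu e) ∧ ¬ inV P.Q X Y (ev e)) ∨
    (TV P X Y (eu e) ∧ ¬ inV P.Q X Y (ev e)) ∨ (¬ inV P.Q X Y (eu e) ∧ TV P X Y (ev e)))

/-- Root edge of the vertex `v` of a free side with direction `k`. -/
def root (k : ℤ) (v : ℤ × ℤ) : ℤ × ℤ := v + outer k v

end Pool.Agent.Q1.M5
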