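import Mathlib
import Pool.Agent.H91.Q1.B2Fin
import Pool.Agent.H76.Q1.C2Final
import Pool.Agent.H4.Q1.C3End

set_option autoImplicit false
open Finset Filter Topology

/-! Module M5, assembly: convergence of the ratios of one-point functions (A) implies the convergence
of the normalised one-point and `k`-point functions and of the crossing probabilities of grid
polygons. -/

namespace Pool.Agent.Q1.M5

/-- **M5**: (A) implies convergence of the normalised `k`-point functions. -/
theorem stC2_of_stA (hA : StA) : ∃ pz : ℝ → ℝ, StPz pz ∧ StB2 pz ∧ StC2 pz := by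
  obtain ⟨pz, hpz, hB2⟩ := Pool.Agent.H91.Q1.stB2 hA
  exact ⟨pz, hpz, hB2, Pool.Agent.H76.Q1.stC2 hpz hB2⟩

/-- **M5**: (A) implies the convergence of the crossing probabilities of grid polygons. -/
theorem stC3_of_stA (hA : StA) : StC3 := by
  obtain ⟨pz, hpz, -, hC2⟩ := stC2_of_stA hA
  exact Pool.Agent.H4.Q1.stC3 hC2 hpz

end Pool.Agent.Q1.M5
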